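import Mathlib

/-!
# Commuting coefficients after left multiplication for singular pencils

Let `V_δ` be the space of the columns `u` of polynomials with `deg u_b ≤ δ_b`, one entry for every
block `𝓛ᵀ_(δ_b)`, and `U_δ` the space of those with `deg u_b < δ_b`; the two coefficients of the
direct sum of the blocks `𝓛ᵀ_(δ_b)` are the inclusion `U_δ → V_δ` and the multiplication by `X`. A
matrix `E` such that `E A`, `E B` commute is obtained from a polynomial matrix `φ` which maps `V_δ`
onto `U_δ`, a similar matrix `φ'` for the blocks `𝓛_(ε_c)`, and a pairing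
`(u, v) ↦ coefficient of X^(r-1) in (ψ u) (ψ' v)` of their kernels, where `ψ, ψ'` are rows of
polynomials which identify both kernels with the polynomials of degree `< r`, `r` being the number of
blocks. `φ` and `ψ` are constructed by adding the blocks in the order of their sizes: the kernel is
identified with a direct sum of spaces of polynomials of degrees `< l a` (windows), in such a way
that the identification is given by rows of polynomials of small degree; two windows can be merged if
this is allowed by the degrees, and a new block of size `D` uses up windows of total length `D`.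
-/

set_option autoImplicit false

open Polynomial
open scoped BigOperators

namespace Pool.Agent.Results.MP_3c4fb9_al.CommutingPencils

/-! ### Polynomials of bounded degree -/

section poly

variable {F : Type} [Field F]

/-- `f` has degree less than `n`. -/
def Lt (n : ℕ) (f : F[X]) : Prop := ∀ m, n ≤ m → f.coeff m = 0

theorem Lt.zero (n : ℕ) : Lt n (0 : F[X]) := fun m _ => coeff_zero m

theorem Lt.add {n : ℕ} {f g : F[X]} (hf : Lt n f) (hg : Lt n g) : Lt n (f + g) := by
  intro m hm
  rw [coeff_add, hf m hm, hg m hm, add_zero]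

theorem Lt.neg {n : ℕ} {f : F[X]} (hf : Lt n f) : Lt n (-f) := by
  intro m hm
  rw [coeff_neg, hf m hm, neg_zero]

theorem Lt.mono {n n' : ℕ} {f : F[X]} (hf : Lt n f) (h : n ≤ n') : Lt n' f :=
  fun m hm => hf m (h.trans hm)

theorem Lt.sum {n : ℕ} {I : Type} (s : Finset I) (f : I → F[X]) (hf : ∀ i ∈ s, Lt n (f i)) :
    Lt n (∑ i ∈ s, f i) := by
  intro m hm
  rw [finsetSum_coeff]
  exact Finset.sum_eq_zero fun i hi => hf i hi m hm

theorem Lt.mul {a c n : ℕ} {f g : F[X]} (hf : Lt a f) (hg : Lt (c + 1) g) (h : a + c ≤ n) :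
    Lt n (f * g) := by
  intro m hm
  rw [coeff_mul]
  refine Finset.sum_eq_zero fun x hx => ?_
  rw [Finset.HasAntidiagonal.mem_antidiagonal] at hx
  by_cases h1 : a ≤ x.1
  · rw [hf _ h1, zero_mul]
  · rw [hg x.2 (by omega), mul_zero]

theorem Lt.eq_zero {f : F[X]} (hf : Lt 0 f) : f = 0 := by
  ext m
  simpa using hf m (Nat.zero_le m)

theorem Lt.X_pow_mul {n : ℕ} {f : F[X]} (hf : Lt n f) (j : ℕ) : Lt (n + j) (X ^ j * f) := by
  intro m hm
  rw [coeff_X_pow_mul', if_pos (by omega)]
  exact hf _ (by omega)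

theorem Lt.of_X_pow_mul {n j : ℕ} {f : F[X]} (hf : Lt (n + j) (X ^ j * f)) : Lt n f := by
  intro m hm
  have := hf (m + j) (by omega)
  rwa [coeff_X_pow_mul] at this

/-- A row of polynomials applied to a column of polynomials. -/
noncomputable def ap {I : Type} [Fintype I] (g u : I → F[X]) : F[X] := ∑ b, g b * u b

theorem ap_add {I : Type} [Fintype I] (g g' u : I → F[X]) :
    ap (fun b => g b + g' b) u = ap g u + ap g' u := by
  simp [ap, add_mul, Finset.sum_add_distrib]

theorem ap_neg {I : Type} [Fintype I] (g u : I → F[X]) : ap (fun b => -g b) u = -ap g u := by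
  simp [ap]

theorem ap_mul {I : Type} [Fintype I] (p : F[X]) (g u : I → F[X]) :
    ap (fun b => p * g b) u = p * ap g u := by
  simp [ap, Finset.mul_sum, mul_assoc]

theorem ap_zero {I : Type} [Fintype I] (u : I → F[X]) : ap (fun _ => 0) u = 0 := by
  simp [ap]

/-- The kernel of the polynomial matrix `φ` on the columns `u` with `deg u b ≤ δ b`. -/
def Ker {I : Type} [Fintype I] (δ : I → ℕ) (φ : I → I → F[X]) (u : I → F[X]) : Prop :=
  (∀ b, Lt (δ b + 1) (u b)) ∧ ∀ b, ap (φ b) u = 0

/-- The row `g` maps the columns `u` with `deg u b ≤ δ b` to polynomials of degree `< D`. -/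
def Row {I : Type} (δ : I → ℕ) (D : ℕ) (g : I → F[X]) : Prop := ∀ b, Lt (D - δ b) (g b)

/-- The state of the construction. -/
structure State {I : Type} [Fintype I] (D : ℕ) (δ : I → ℕ) (φ : I → I → F[X]) {W : Type} [Fintype W]
    (l : W → ℕ) (Ψ : W → I → F[X]) : Prop where
  phi : ∀ b, Row δ (δ b) (φ b)
  deg : ∀ u, Ker δ φ u → ∀ a, Lt (l a) (ap (Ψ a) u)
  inj : ∀ u, Ker δ φ u → (∀ a, ap (Ψ a) u = 0) → u = 0
  ext : ∀ a j, l a + j ≤ D → ∃ g : I → F[X], Row δ D g ∧
    ∀ u, Ker δ φ u → ap g u = X ^ j * ap (Ψ a) u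
  top : ∀ a, l a = D + 1 → Row δ (D + 1) (Ψ a)
  le : ∀ a, l a ≤ D + 1
  sum : ∑ a, l a = Fintype.card I
  cnt : ∑ a, (if l a = D + 1 then 1 else 0) = ∑ b, (if δ b = D then 1 else 0)
  dle : ∀ b, δ b ≤ D

/-- a function on `Option I` -/
def cons0 {I α : Type} (x : α) (f : I → α) : Option I → α := fun o => o.elim x f

@[simp] theorem cons0_none {I α : Type} (x : α) (f : I → α) : cons0 x f none = x := rfl
@[simp] theorem cons0_some {I α : Type} (x : α) (f : I → α) (b : I) : cons0 x f (some b) = f b := rfl

/-- adding an empty window -/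
theorem State.addEmpty {I : Type} [Fintype I] {D : ℕ} {δ : I → ℕ} {φ : I → I → F[X]} {W : Type}
    [Fintype W] {l : W → ℕ} {Ψ : W → I → F[X]} (S : State D δ φ l Ψ) :
    State D δ φ (cons0 0 l) (cons0 (fun _ => 0) Ψ) where
  phi := S.phi
  deg u hu a := by
    cases a with
    | none => rw [cons0_none, cons0_none, ap_zero]; exact Lt.zero _
    | some a => exact S.deg u hu a
  inj u hu h := S.inj u hu fun a => h (some a)
  ext a j hj := by
    cases a with
    | none =>
      refine ⟨fun _ => 0, fun b => Lt.zero _, fun u hu => ?_⟩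
      rw [cons0_none, ap_zero, mul_zero]
    | some a => exact S.ext a j hj
  top a ha := by
    cases a with
    | none => simp at ha
    | some a => exact S.top a ha
  le a := by
    cases a with
    | none => simp
    | some a => exact S.le a
  sum := by
    rw [Fintype.sum_option]
    simpa using S.sum
  cnt := by
    rw [← S.cnt, Fintype.sum_option]
    have h1 : (if cons0 0 l none = D + 1 then 1 else 0) = 0 := if_neg (by simp)
    rw [h1, zero_add]
    rfl
  dle := S.dle

/-- raising `D` -/
theorem State.raise {I : Type} [Fintype I] {D : ℕ} {δ : I → ℕ} {φ : I → I → F[X]} {W : Type}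
    [Fintype W] {l : W → ℕ} {Ψ : W → I → F[X]} (S : State D δ φ l Ψ) :
    State (D + 1) δ φ l Ψ where
  phi := S.phi
  deg := S.deg
  inj := S.inj
  ext a j hj := by
    by_cases h1 : l a = D + 1
    · have hj0 : j = 0 := by omega
      subst hj0
      exact ⟨Ψ a, S.top a h1, fun u _ => by rw [pow_zero, one_mul]⟩
    · have h2 := S.le a
      rcases Nat.eq_zero_or_pos j with hj0 | hjp
      · subst hj0
        obtain ⟨g, hg, hg2⟩ := S.ext a 0 (by omega)
        exact ⟨g, fun b => (hg b).mono (by omega), hg2⟩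
      · obtain ⟨g, hg, hg2⟩ := S.ext a (j - 1) (by omega)
        refine ⟨fun b => X ^ 1 * g b, fun b => ?_, fun u hu => ?_⟩
        · have h3 := (hg b).X_pow_mul 1
          by_cases h4 : δ b ≤ D
          · exact h3.mono (by omega)
          · exact absurd (S.dle b) h4
        · rw [ap_mul, hg2 u hu, ← mul_assoc, ← pow_add]
          congr 2
          omega
  top a ha := absurd (S.le a) (by omega)
  le a := (S.le a).trans (by omega)
  sum := S.sum
  cnt := by
    rw [Finset.sum_eq_zero, Finset.sum_eq_zero]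
    · intro b _
      have := S.dle b
      exact if_neg (by omega)
    · intro a _
      have := S.le a
      exact if_neg (by omega)
  dle b := (S.dle b).trans (by omega)

/-- merging the windows of a finite set -/
theorem State.merge {I : Type} [Fintype I] {D : ℕ} {δ : I → ℕ} {φ : I → I → F[X]} {W : Type}
    [Fintype W] {l : W → ℕ} {Ψ : W → I → F[X]} (S : State D δ φ l Ψ) (s : Finset W)
    (hs : ∑ a ∈ s, l a ≤ D) :
    ∃ P : I → F[X], (∀ u, Ker δ φ u → Lt (∑ a ∈ s, l a) (ap P u)) ∧
      (∀ u, Ker δ φ u → ap P u = 0 → ∀ a ∈ s, ap (Ψ a) u = 0) ∧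
      (∀ j, ∑ a ∈ s, l a + j ≤ D → ∃ g : I → F[X], Row δ D g ∧
        ∀ u, Ker δ φ u → ap g u = X ^ j * ap P u) := by
  classical
  induction s using Finset.induction_on with
  | empty =>
    refine ⟨fun _ => 0, fun u _ => ?_, fun u _ _ a ha => ?_, fun j _ => ?_⟩
    · rw [ap_zero]; exact Lt.zero _
    · simp at ha
    · refine ⟨fun _ => 0, fun b => Lt.zero _, fun u _ => ?_⟩
      rw [ap_zero, mul_zero]
  | insert a s ha ih =>
    rw [Finset.sum_insert ha] at hs ⊢
    obtain ⟨P, h1, h2, h3⟩ := ih (by omega)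
    set L := ∑ a ∈ s, l a with hL
    refine ⟨fun b => P b + X ^ L * Ψ a b, fun u hu => ?_, fun u hu h0 => ?_, fun j hj => ?_⟩
    · rw [ap_add, ap_mul]
      exact ((h1 u hu).mono (by omega)).add ((S.deg u hu a).X_pow_mul L)
    · rw [ap_add, ap_mul] at h0
      have e1 : ap (Ψ a) u = 0 := by
        ext m
        have := congrArg (fun f : F[X] => f.coeff (m + L)) h0
        simp only [coeff_add, coeff_X_pow_mul, coeff_zero] at this
        rw [h1 u hu (m + L) (by omega), zero_add] at this
        rw [this, coeff_zero]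
      have e2 : ap P u = 0 := by rwa [e1, mul_zero, add_zero] at h0
      intro a' ha'
      rcases Finset.mem_insert.1 ha' with h | h
      · rw [h]; exact e1
      · exact h2 u hu e2 a' h
    · obtain ⟨g, hg, hg2⟩ := h3 j (by omega)
      obtain ⟨g', hg', hg2'⟩ := S.ext a (L + j) (by omega)
      refine ⟨fun b => g b + g' b, fun b => (hg b).add (hg' b), fun u hu => ?_⟩
      rw [ap_add, ap_add, ap_mul, hg2 u hu, hg2' u hu, pow_add]
      ring

/-- the choice of the windows for the next block -/
theorem choose_windows {W : Type} [Fintype W] (l : W → ℕ) (D : ℕ) (a0 : W) (ha0 : l a0 = 0)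
    (h : D ≤ ∑ a ∈ Finset.univ.filter (fun a => l a ≤ D), l a) :
    ∃ (s : Finset W) (a : W), (∀ x ∈ s, l x ≤ D) ∧ l a ≤ D ∧ a ∉ s ∧ ∑ x ∈ s, l x ≤ D ∧
      D ≤ ∑ x ∈ s, l x + l a := by
  classical
  set T : Finset W := Finset.univ.filter (fun a => l a ≤ D) with hT
  set Fm : Finset (Finset W) := (T.erase a0).powerset.filter (fun s => ∑ x ∈ s, l x ≤ D) with hFm
  have hne : Fm.Nonempty := ⟨∅, by simp [hFm]⟩
  obtain ⟨s, hs, hmax⟩ := Finset.exists_max_image Fm (fun s => s.card) hne
  rw [hFm, Finset.mem_filter, Finset.mem_powerset] at hs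
  obtain ⟨hs1, hs2⟩ := hs
  have hsT : ∀ x ∈ s, l x ≤ D := fun x hx =>
    (Finset.mem_filter.1 (Finset.mem_of_mem_erase (hs1 hx))).2
  by_cases hex : ∃ a ∈ T.erase a0, a ∉ s
  · obtain ⟨a, ha, has⟩ := hex
    refine ⟨s, a, hsT, (Finset.mem_filter.1 (Finset.mem_of_mem_erase ha)).2, has, hs2, ?_⟩
    by_contra hlt
    have h1 : insert a s ∈ Fm := by
      rw [hFm, Finset.mem_filter, Finset.mem_powerset]
      refine ⟨Finset.insert_subset ha hs1, ?_⟩
      rw [Finset.sum_insert has]
      omega
    have h2 := hmax _ h1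
    rw [Finset.card_insert_of_notMem has] at h2
    omega
  · push Not at hex
    have hseq : s = T.erase a0 := Finset.Subset.antisymm hs1 hex
    refine ⟨s, a0, hsT, by omega, ?_, hs2, ?_⟩
    · rw [hseq]; simp
    · have h1 : a0 ∈ T := by rw [hT, Finset.mem_filter]; exact ⟨Finset.mem_univ _, by omega⟩
      have h2 := Finset.sum_erase_add T l h1
      rw [← hseq] at h2
      omega

/-- extension of a row by zero -/
noncomputable def ext0 {I : Type} (g : I → F[X]) : Option I → F[X] := cons0 0 g

theorem ap_ext0 {I : Type} [Fintype I] (g : I → F[X]) (u : Option I → F[X]) :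
    ap (ext0 g) u = ap g (fun b => u (some b)) := by
  rw [ap, Fintype.sum_option]
  simp [ext0, ap]

theorem row_ext0 {I : Type} {δ : I → ℕ} {D D' : ℕ} {g : I → F[X]} (hg : Row δ D' g) :
    Row (cons0 D δ) D' (ext0 g) := by
  intro b
  cases b with
  | none => exact Lt.zero _
  | some b => exact hg b

/-- adding a block of size `D` -/
theorem State.step {I : Type} [Fintype I] {D : ℕ} {δ : I → ℕ} {φ : I → I → F[X]} {W : Type}
    [Fintype W] {l : W → ℕ} {Ψ : W → I → F[X]} (S : State D δ φ l Ψ) (a0 : W) (ha0 : l a0 = 0)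
    (h : D ≤ ∑ a ∈ Finset.univ.filter (fun a => l a ≤ D), l a) :
    ∃ (φ' : Option I → Option I → F[X]) (l' : Option W → ℕ) (Ψ' : Option W → Option I → F[X]),
      State D (cons0 D δ) φ' l' Ψ' := by
  classical
  obtain ⟨s, ast, hsT, hast, hasts, hsD, hDs⟩ := choose_windows l D a0 ha0 h
  obtain ⟨P, hP1, hP2, hP3⟩ := S.merge s hsD
  set L := ∑ x ∈ s, l x with hL
  obtain ⟨g1, hg1, hg1'⟩ := hP3 0 (by omega)
  obtain ⟨g2, hg2, hg2'⟩ := S.ext ast (D - l ast) (by omega)
  -- the new row
  set ψ : I → F[X] := fun b => g1 b + g2 b with hψ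
  have hψrow : Row δ D ψ := fun b => (hg1 b).add (hg2 b)
  have hψap : ∀ u, Ker δ φ u → ap ψ u = ap P u + X ^ (D - l ast) * ap (Ψ ast) u := by
    intro u hu
    rw [hψ, ap_add, hg1' u hu, hg2' u hu, pow_zero, one_mul]
  set v := L + l ast - D with hv
  refine ⟨cons0 (ext0 ψ) (fun b => ext0 (φ b)),
    cons0 (D + 1) (fun a => if a ∈ s then 0 else if a = ast then v else l a),
    cons0 (cons0 1 (fun _ => 0)) (fun a => if a ∈ s then fun _ => 0 else ext0 (Ψ a)), ?_⟩
  have hker : ∀ u : Option I → F[X],
      Ker (cons0 D δ) (cons0 (ext0 ψ) (fun b => ext0 (φ b))) u →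
      Ker δ φ (fun b => u (some b)) ∧
        ap P (fun b => u (some b)) + X ^ (D - l ast) * ap (Ψ ast) (fun b => u (some b)) = 0 ∧
        Lt (D + 1) (u none) := by
    intro u hu
    have hk : Ker δ φ (fun b => u (some b)) := by
      refine ⟨fun b => hu.1 (some b), fun b => ?_⟩
      have := hu.2 (some b)
      rwa [cons0_some, ap_ext0] at this
    refine ⟨hk, ?_, hu.1 none⟩
    have := hu.2 none
    rw [cons0_none, ap_ext0, hψap _ hk] at this
    exact this
  have hnone : ∀ u : Option I → F[X],
      ap (cons0 (1 : F[X]) (fun _ : I => 0)) u = u none := by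
    intro u
    rw [ap, Fintype.sum_option]
    simp
  constructor
  · -- phi
    intro b
    cases b with
    | none => exact row_ext0 hψrow
    | some b => exact row_ext0 (S.phi b)
  · -- deg
    intro u hu a
    obtain ⟨hk, hrel, hn⟩ := hker u hu
    cases a with
    | none =>
      rw [cons0_none, cons0_none, hnone]
      exact hn
    | some a =>
      rw [cons0_some, cons0_some]
      by_cases h1 : a ∈ s
      · rw [if_pos h1, if_pos h1, ap_zero]
        exact Lt.zero _
      · rw [if_neg h1, if_neg h1, ap_ext0]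
        by_cases h2 : a = ast
        · rw [if_pos h2, h2]
          have h3 : X ^ (D - l ast) * ap (Ψ ast) (fun b => u (some b)) =
              -ap P (fun b => u (some b)) := by
            rw [add_comm] at hrel
            exact eq_neg_of_add_eq_zero_left hrel
          have h4 : Lt (v + (D - l ast)) (X ^ (D - l ast) * ap (Ψ ast) (fun b => u (some b))) := by
            rw [h3]
            exact ((hP1 _ hk).neg).mono (by omega)
          exact h4.of_X_pow_mul
        · rw [if_neg h2]
          exact S.deg _ hk a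
  · -- inj
    intro u hu h0
    obtain ⟨hk, hrel, hn⟩ := hker u hu
    have e0 : u none = 0 := by
      have := h0 none
      rwa [cons0_none, hnone] at this
    have e1 : ∀ a, a ∉ s → ap (Ψ a) (fun b => u (some b)) = 0 := by
      intro a ha
      have := h0 (some a)
      rwa [cons0_some, if_neg ha, ap_ext0] at this
    have e2 : ap P (fun b => u (some b)) = 0 := by
      rwa [e1 ast hasts, mul_zero, add_zero] at hrel
    have e3 : (fun b => u (some b)) = 0 := by
      apply S.inj _ hk
      intro a
      by_cases ha : a ∈ s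
      · exact hP2 _ hk e2 a ha
      · exact e1 a ha
    funext b
    cases b with
    | none => exact e0
    | some b => exact congrFun e3 b
  · -- ext
    intro a j hj
    cases a with
    | none =>
      rw [cons0_none] at hj
      omega
    | some a =>
      rw [cons0_some] at hj ⊢
      by_cases h1 : a ∈ s
      · rw [if_pos h1]
        refine ⟨fun _ => 0, fun b => Lt.zero _, fun u _ => ?_⟩
        rw [ap_zero, mul_zero]
      · rw [if_neg h1] at hj ⊢
        by_cases h2 : a = ast
        · rw [if_pos h2] at hj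
          subst h2
          by_cases h3 : l a + j ≤ D
          · obtain ⟨g, hg, hg'⟩ := S.ext a j h3
            refine ⟨ext0 g, row_ext0 hg, fun u hu => ?_⟩
            rw [ap_ext0, ap_ext0, hg' _ (hker u hu).1]
          · obtain ⟨g, hg, hg'⟩ := hP3 (j - (D - l a)) (by omega)
            refine ⟨ext0 (fun b => -g b), row_ext0 (fun b => (hg b).neg), fun u hu => ?_⟩
            obtain ⟨hk, hrel, -⟩ := hker u hu
            have h4 : ap P (fun b => u (some b)) =
                -(X ^ (D - l a) * ap (Ψ a) (fun b => u (some b))) :=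
              eq_neg_of_add_eq_zero_left hrel
            rw [ap_ext0, ap_ext0, ap_neg, hg' _ hk, h4]
            rw [mul_neg, neg_neg, ← mul_assoc, ← pow_add]
            congr 2
            omega
        · rw [if_neg h2] at hj
          obtain ⟨g, hg, hg'⟩ := S.ext a j hj
          refine ⟨ext0 g, row_ext0 hg, fun u hu => ?_⟩
          rw [ap_ext0, ap_ext0, hg' _ (hker u hu).1]
  · -- top
    intro a ha
    cases a with
    | none =>
      intro b
      cases b with
      | none =>
        rw [cons0_none, cons0_none, cons0_none]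
        intro m hm
        rw [coeff_one, if_neg (by omega)]
      | some b => exact Lt.zero _
    | some a =>
      rw [cons0_some] at ha ⊢
      by_cases h1 : a ∈ s
      · rw [if_pos h1] at ha
        omega
      · rw [if_neg h1] at ha ⊢
        by_cases h2 : a = ast
        · rw [if_pos h2] at ha
          omega
        · rw [if_neg h2] at ha
          exact row_ext0 (S.top a ha)
  · -- le
    intro a
    cases a with
    | none => exact le_refl _
    | some a =>
      rw [cons0_some]
      split_ifs
      · omega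
      · omega
      · exact S.le a
  · -- sum
    rw [Fintype.sum_option, Fintype.card_option]
    simp only [cons0_none, cons0_some]
    have h1 : ∑ a, (if a ∈ s then 0 else if a = ast then v else l a) + L + l ast =
        Fintype.card I + v := by
      rw [← S.sum, hL]
      have e1 : ∑ x ∈ s, l x = ∑ a, if a ∈ s then l a else 0 := by
        rw [Finset.sum_ite_mem, Finset.univ_inter]
      have e2 : l ast = ∑ a, if a = ast then l a else 0 := by simp
      have e3 : v = ∑ a, if a = ast then v else 0 := by simp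
      rw [e1, e2]
      conv_rhs => rw [e3]
      rw [← Finset.sum_add_distrib, ← Finset.sum_add_distrib, ← Finset.sum_add_distrib]
      refine Finset.sum_congr rfl fun a _ => ?_
      by_cases h1 : a ∈ s
      · have h2 : a ≠ ast := fun h => hasts (h ▸ h1)
        simp [h1, h2]
      · by_cases h2 : a = ast
        · simp [h2, hasts, add_comm]
        · simp [h1, h2]
    omega
  · -- cnt
    rw [Fintype.sum_option, Fintype.sum_option]
    refine congrArg₂ (· + ·) ((if_pos rfl).trans (if_pos rfl).symm) ?_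
    refine Eq.trans ?_ S.cnt
    refine Finset.sum_congr rfl fun a _ => ?_
    change (if (if a ∈ s then 0 else if a = ast then v else l a) = D + 1 then 1 else 0) =
      if l a = D + 1 then 1 else 0
    by_cases h1 : a ∈ s
    · have := hsT a h1
      rw [if_pos h1, if_neg (by omega), if_neg (by omega)]
    · rw [if_neg h1]
      by_cases h2 : a = ast
      · rw [if_pos h2, if_neg (by omega), h2, if_neg (by omega)]
      · rw [if_neg h2]
  · -- dle
    intro b
    cases b with
    | none => exact le_refl _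
    | some b => exact S.dle b

/-- renaming the blocks -/
theorem State.transport {I I' : Type} [Fintype I] [Fintype I'] (e : I ≃ I') {D : ℕ} {δ : I → ℕ}
    {φ : I → I → F[X]} {W : Type} [Fintype W] {l : W → ℕ} {Ψ : W → I → F[X]}
    (S : State D δ φ l Ψ) :
    State D (fun b => δ (e.symm b)) (fun b b' => φ (e.symm b) (e.symm b')) l
      (fun a b => Ψ a (e.symm b)) := by
  have hap : ∀ (g : I → F[X]) (u : I' → F[X]),
      ap (fun b => g (e.symm b)) u = ap g (fun b => u (e b)) := by
    intro g u
    unfold ap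
    rw [← Equiv.sum_comp e]
    simp
  have hker : ∀ u : I' → F[X], Ker (fun b => δ (e.symm b)) (fun b b' => φ (e.symm b) (e.symm b')) u →
      Ker δ φ (fun b => u (e b)) := by
    intro u hu
    refine ⟨fun b => ?_, fun b => ?_⟩
    · have := hu.1 (e b)
      simpa using this
    · have := hu.2 (e b)
      rw [hap] at this
      simpa using this
  constructor
  · intro b b'
    exact S.phi (e.symm b) (e.symm b')
  · intro u hu a
    rw [hap]
    exact S.deg _ (hker u hu) a
  · intro u hu h0
    have h1 := S.inj _ (hker u hu) (fun a => by rw [← hap]; exact h0 a)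
    funext b
    have := congrFun h1 (e.symm b)
    simpa using this
  · intro a j hj
    obtain ⟨g, hg, hg'⟩ := S.ext a j hj
    refine ⟨fun b => g (e.symm b), fun b => hg _, fun u hu => ?_⟩
    rw [hap, hap, hg' _ (hker u hu)]
  · intro a ha b
    exact S.top a ha _
  · exact S.le
  · rw [S.sum]
    exact Fintype.card_congr e
  · rw [S.cnt, ← Equiv.sum_comp e]
    simp
  · intro b
    exact S.dle _

/-- The condition on the sizes of the blocks. -/
def Cond {I : Type} [Fintype I] (δ : I → ℕ) : Prop :=
  ∀ d, d * (Finset.univ.filter fun b => δ b = d).card ≤ (Finset.univ.filter fun b => δ b < d).card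

theorem exists_state (n : ℕ) : ∀ (I : Type) [Fintype I] (δ : I → ℕ), Fintype.card I = n → Cond δ →
    ∀ D : ℕ, (∀ b, δ b ≤ D) → ∃ (W : Type) (_ : Fintype W) (φ : I → I → F[X]) (l : W → ℕ)
      (Ψ : W → I → F[X]), State D δ φ l Ψ := by
  classical
  induction n with
  | zero =>
    intro I _ δ hI _ D _
    have : IsEmpty I := Fintype.card_eq_zero_iff.1 hI
    refine ⟨Empty, inferInstance, fun b => isEmptyElim b, fun a => a.elim, fun a => a.elim, ?_⟩
    constructor
    · intro b; exact isEmptyElim b
    · intro u hu a; exact a.elim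
    · intro u hu _; funext b; exact isEmptyElim b
    · intro a; exact a.elim
    · intro a; exact a.elim
    · intro a; exact a.elim
    · simp
    · simp
    · intro b; exact isEmptyElim b
  | succ n ih =>
    intro I _ δ hI hc D hD
    have : Nonempty I := Fintype.card_pos_iff.1 (by omega)
    obtain ⟨b0, -, hb0⟩ := Finset.exists_max_image Finset.univ δ Finset.univ_nonempty
    set D0 := δ b0 with hD0
    -- the other blocks
    let I' : Type := {b : I // b ≠ b0}
    let δ' : I' → ℕ := fun b => δ b.1
    have hcard : Fintype.card I' = n := by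
      have := Fintype.card_subtype_compl (fun b : I => b = b0)
      simp only [Fintype.card_subtype_eq] at this
      change Fintype.card {b : I // ¬ b = b0} = n
      omega
    have hfil : ∀ (p : I → Prop) [DecidablePred p],
        (Finset.univ.filter fun b : I => p b).card =
          (Finset.univ.filter fun b : I' => p b.1).card + (if p b0 then 1 else 0) := by
      intro p _
      rw [Finset.card_filter, Finset.card_filter, ← Finset.add_sum_erase _ _ (Finset.mem_univ b0),
        add_comm]
      congr 1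
      rw [← Finset.sum_subtype (Finset.univ.erase b0) (fun x => by simp)
        (fun b : I => if p b then 1 else 0)]
    have hc' : Cond δ' := by
      intro d
      have h1 := hc d
      have h2 := hfil (fun b => δ b = d)
      have h3 := hfil (fun b => δ b < d)
      change d * (Finset.univ.filter fun b : I' => δ b.1 = d).card ≤
        (Finset.univ.filter fun b : I' => δ b.1 < d).card
      by_cases h4 : D0 < d
      · have h5 : (Finset.univ.filter fun b : I' => δ b.1 = d).card = 0 := by
          rw [Finset.card_eq_zero, Finset.filter_eq_empty_iff]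
          intro b _
          have := hb0 b.1 (Finset.mem_univ _)
          omega
        rw [h5, mul_zero]
        exact Nat.zero_le _
      · rw [if_neg (by omega)] at h3
        rw [add_zero] at h3
        rw [← h3]
        refine le_trans (Nat.mul_le_mul_left d ?_) h1
        rw [h2]
        exact Nat.le_add_right _ _
    obtain ⟨W, hW, φ, l, Ψ, S⟩ := ih I' δ' hcard hc' D0
      (fun b => hb0 b.1 (Finset.mem_univ _))
    -- enough room for the new block
    have hroom : D0 ≤ ∑ a ∈ Finset.univ.filter (fun a => cons0 0 l a ≤ D0), cons0 0 l a := by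
      have h1 := S.addEmpty.sum
      have h2 := S.addEmpty.cnt
      have h3 : ∑ a, cons0 0 l a =
          ∑ a ∈ Finset.univ.filter (fun a => cons0 0 l a ≤ D0), cons0 0 l a +
            (D0 + 1) * ∑ a, (if cons0 0 l a = D0 + 1 then 1 else 0) := by
        rw [Finset.mul_sum, Finset.sum_filter, ← Finset.sum_add_distrib]
        refine Finset.sum_congr rfl fun a _ => ?_
        have h4 := S.addEmpty.le a
        by_cases h5 : cons0 0 l a = D0 + 1
        · rw [if_neg (by omega), if_pos h5]
          omega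
        · rw [if_pos (by omega), if_neg h5]
          simp
      rw [h1, h2] at h3
      have h4 : ∑ b : I', (if δ' b = D0 then 1 else 0) =
          (Finset.univ.filter fun b : I' => δ b.1 = D0).card := by
        rw [Finset.card_filter]
      have h5 : Fintype.card I' = (Finset.univ.filter fun b : I' => δ b.1 < D0).card +
          (Finset.univ.filter fun b : I' => δ b.1 = D0).card := by
        rw [← Finset.card_univ, Finset.card_filter, Finset.card_filter, ← Finset.sum_add_distrib,
          Finset.card_eq_sum_ones]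
        refine Finset.sum_congr rfl fun b _ => ?_
        have := hb0 b.1 (Finset.mem_univ _)
        by_cases h6 : δ b.1 = D0
        · rw [if_neg (by omega), if_pos h6]
        · rw [if_pos (by omega), if_neg h6]
      rw [h4, h5] at h3
      have h6 := hc D0
      have h7 := hfil (fun b => δ b = D0)
      have h8 := hfil (fun b => δ b < D0)
      rw [if_pos rfl] at h7
      rw [if_neg (by omega), add_zero] at h8
      rw [h7, h8] at h6
      set X1 := (Finset.univ.filter fun b : I' => δ b.1 = D0).card
      set X2 := (Finset.univ.filter fun b : I' => δ b.1 < D0).card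
      have h9 : D0 * (X1 + 1) = D0 * X1 + D0 := by ring
      have h10 : (D0 + 1) * X1 = D0 * X1 + X1 := by ring
      omega
    obtain ⟨φ', l', Ψ', S'⟩ := S.addEmpty.step none rfl hroom
    -- rename
    let e : Option I' ≃ I := Equiv.optionSubtypeNe b0
    have hδ : (fun b => cons0 D0 δ' (e.symm b)) = δ := by
      funext b
      by_cases hb : b = b0
      · subst hb
        have : e.symm b = none := by
          rw [Equiv.symm_apply_eq]
          exact (Equiv.optionSubtypeNe_none b).symm
        rw [this]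
        rfl
      · have : e.symm b = some ⟨b, hb⟩ := by
          rw [Equiv.symm_apply_eq]
          exact (Equiv.optionSubtypeNe_some b0 ⟨b, hb⟩).symm
        rw [this]
        rfl
    have S2 := S'.transport e
    rw [hδ] at S2
    have hraise : ∀ m : ℕ, State (D0 + m) δ (fun b b' => φ' (e.symm b) (e.symm b')) l'
        (fun a b => Ψ' a (e.symm b)) := by
      intro m
      induction m with
      | zero => exact S2
      | succ m ihm => exact ihm.raise
    have h3 := hraise (D - D0)
    have h4 : D0 + (D - D0) = D := by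
      have := hD b0
      omega
    rw [h4] at h3
    exact ⟨_, inferInstance, _, _, _, h3⟩

/-- **Main lemma.** -/
theorem exists_phi_psi {I : Type} [Fintype I] (δ : I → ℕ) (hc : Cond δ) :
    ∃ (φ : I → I → F[X]) (ψ : I → F[X]), (∀ b, Row δ (δ b) (φ b)) ∧
      (∀ u, Ker δ φ u → Lt (Fintype.card I) (ap ψ u)) ∧
      (∀ u, Ker δ φ u → ap ψ u = 0 → u = 0) := by
  classical
  set D := Fintype.card I + (∑ b, δ b) + 1 with hD
  have hle : ∀ b, δ b ≤ D := by
    intro b
    have := Finset.single_le_sum (f := δ) (fun _ _ => Nat.zero_le _) (Finset.mem_univ b)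
    omega
  obtain ⟨W, hW, φ, l, Ψ, S⟩ := exists_state (F := F) (Fintype.card I) I δ rfl hc D hle
  obtain ⟨P, hP1, hP2, -⟩ := S.merge Finset.univ (by rw [S.sum]; omega)
  rw [S.sum] at hP1
  exact ⟨φ, P, S.phi, hP1, fun u hu h0 => S.inj u hu fun a => hP2 u hu h0 a (Finset.mem_univ a)⟩

/-! ### Matrices -/

/-- The pairs `(b, i)`, `0 ≤ i ≤ δ b`. -/
abbrev Big {I : Type} (δ : I → ℕ) : Type := Σ b : I, Fin (δ b + 1)

/-- The pairs `(b, i)`, `0 ≤ i < δ b`. -/
abbrev Sml {I : Type} (δ : I → ℕ) : Type := Σ b : I, Fin (δ b)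

variable {I : Type} [Fintype I] [DecidableEq I]

/-- The coefficient of `1` in the direct sum of the pencils `𝓛ᵀ_(δ b)`: `1` in the positions
`(i + 1, i)` of every block. -/
def aT (F : Type) [Field F] (δ : I → ℕ) : Matrix (Big δ) (Sml δ) F :=
  fun p q => if p.1 = q.1 ∧ (p.2 : ℕ) = q.2 + 1 then 1 else 0

/-- The coefficient of `λ` in the direct sum of the pencils `𝓛ᵀ_(δ b)`: `1` in the positions
`(i, i)` of every block. -/
def bT (F : Type) [Field F] (δ : I → ℕ) : Matrix (Big δ) (Sml δ) F :=
  fun p q => if p.1 = q.1 ∧ (p.2 : ℕ) = q.2 then 1 else 0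

variable {δ : I → ℕ}

theorem mul_aT {R : Type} (M : Matrix R (Big δ) F) (p : R) (q : Sml δ) :
    (M * aT F δ) p q = M p ⟨q.1, q.2.succ⟩ := by
  rw [Matrix.mul_apply, Finset.sum_eq_single ⟨q.1, q.2.succ⟩]
  · simp [aT]
  · rintro ⟨b, i⟩ _ hne
    have : ¬ (b = q.1 ∧ (i : ℕ) = q.2 + 1) := by
      rintro ⟨h1, h2⟩
      apply hne
      subst h1
      congr 1
      exact Fin.ext (by simpa using h2)
    simp [aT, this]
  · intro h
    exact absurd (Finset.mem_univ _) h

theorem mul_bT {R : Type} (M : Matrix R (Big δ) F) (p : R) (q : Sml δ) :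
    (M * bT F δ) p q = M p ⟨q.1, q.2.castSucc⟩ := by
  rw [Matrix.mul_apply, Finset.sum_eq_single ⟨q.1, q.2.castSucc⟩]
  · simp [bT]
  · rintro ⟨b, i⟩ _ hne
    have : ¬ (b = q.1 ∧ (i : ℕ) = q.2) := by
      rintro ⟨h1, h2⟩
      apply hne
      subst h1
      congr 1
      exact Fin.ext (by simpa using h2)
    simp [bT, this]
  · intro h
    exact absurd (Finset.mem_univ _) h

theorem aT_mul {R : Type} (M : Matrix (Sml δ) R F) (b : I) (i : Fin (δ b + 1)) (q : R) :
    (aT F δ * M) ⟨b, i⟩ q = if h : (i : ℕ) = 0 then 0 else M ⟨b, ⟨i - 1, by omega⟩⟩ q := by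
  rw [Matrix.mul_apply]
  by_cases h : (i : ℕ) = 0
  · rw [dif_pos h]
    refine Finset.sum_eq_zero fun s _ => ?_
    simp [aT, h]
  · rw [dif_neg h, Finset.sum_eq_single ⟨b, ⟨i - 1, by omega⟩⟩]
    · have h1 : (i : ℕ) = (i : ℕ) - 1 + 1 := by omega
      simp only [aT]
      rw [if_pos ⟨trivial, h1⟩, one_mul]
    · rintro ⟨b', j⟩ _ hne
      have : ¬ (b = b' ∧ (i : ℕ) = j + 1) := by
        rintro ⟨h1, h2⟩
        apply hne
        subst h1
        congr 1
        exact Fin.ext (by simp; omega)
      simp [aT, this]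
    · intro h
      exact absurd (Finset.mem_univ _) h

theorem bT_mul {R : Type} (M : Matrix (Sml δ) R F) (b : I) (i : Fin (δ b + 1)) (q : R) :
    (bT F δ * M) ⟨b, i⟩ q = if h : (i : ℕ) < δ b then M ⟨b, ⟨i, h⟩⟩ q else 0 := by
  rw [Matrix.mul_apply]
  by_cases h : (i : ℕ) < δ b
  · rw [dif_pos h, Finset.sum_eq_single ⟨b, ⟨i, h⟩⟩]
    · simp [bT]
    · rintro ⟨b', j⟩ _ hne
      have : ¬ (b = b' ∧ (i : ℕ) = j) := by
        rintro ⟨h1, h2⟩
        apply hne
        subst h1
        congr 1
        exact Fin.ext (by simp [h2])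
      simp [bT, this]
    · intro h
      exact absurd (Finset.mem_univ _) h
  · rw [dif_neg h]
    refine Finset.sum_eq_zero ?_
    rintro ⟨b', j⟩ _
    have : ¬ (b = b' ∧ (i : ℕ) = j) := by
      rintro ⟨h1, h2⟩
      subst h1
      have := j.2
      omega
    simp [bT, this]

/-- The matrix of the polynomial matrix `φ`. -/
noncomputable def phiM (δ : I → ℕ) (φ : I → I → F[X]) : Matrix (Sml δ) (Big δ) F :=
  fun p q => (X ^ (q.2 : ℕ) * φ p.1 q.1).coeff p.2

omit [Fintype I] [DecidableEq I] in
theorem row_eq_zero {φ : I → I → F[X]} (hφ : ∀ b, Row δ (δ b) (φ b)) (b b' : I)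
    (h : δ b ≤ δ b') : φ b b' = 0 := by
  have h1 := hφ b b'
  have h2 : δ b - δ b' = 0 := by omega
  rw [h2] at h1
  exact h1.eq_zero

theorem coeffXmul (f : F[X]) (m : ℕ) : (X * f).coeff m = if m = 0 then 0 else f.coeff (m - 1) := by
  cases m <;> simp

theorem phiM_comm {φ : I → I → F[X]} (hφ : ∀ b, Row δ (δ b) (φ b)) :
    aT F δ * (phiM δ φ * bT F δ) = bT F δ * (phiM δ φ * aT F δ) := by
  ext ⟨b, i⟩ ⟨b', j⟩
  rw [aT_mul, bT_mul]
  by_cases hi : (i : ℕ) < δ b
  · rw [dif_pos hi, mul_aT]
    by_cases h0 : (i : ℕ) = 0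
    · rw [dif_pos h0]
      simp only [phiM, Fin.val_succ]
      rw [pow_succ', mul_assoc, coeffXmul, if_pos h0]
    · rw [dif_neg h0, mul_bT]
      simp only [phiM, Fin.val_succ, Fin.val_castSucc]
      rw [pow_succ' X (j : ℕ), mul_assoc, coeffXmul, if_neg h0]
  · rw [dif_neg hi]
    by_cases h0 : (i : ℕ) = 0
    · rw [dif_pos h0]
    · rw [dif_neg h0, mul_bT]
      simp only [phiM, Fin.val_castSucc]
      by_cases hbb : δ b ≤ δ b'
      · rw [row_eq_zero hφ b b' hbb, mul_zero, coeff_zero]
      · have h1 := (hφ b b').X_pow_mul (j : ℕ)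
        apply h1
        have := j.2
        have := i.2
        omega

/-- The column of polynomials with coefficients `u`. -/
noncomputable def pol (u : Big δ → F) (b : I) : F[X] :=
  ∑ i : Fin (δ b + 1), C (u ⟨b, i⟩) * X ^ (i : ℕ)

omit [Fintype I] [DecidableEq I] in
theorem pol_coeff (u : Big δ → F) (b : I) (m : ℕ) :
    (pol u b).coeff m = if h : m < δ b + 1 then u ⟨b, ⟨m, h⟩⟩ else 0 := by
  unfold pol
  rw [finsetSum_coeff]
  by_cases h : m < δ b + 1
  · rw [dif_pos h, Finset.sum_eq_single ⟨m, h⟩]
    · simp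
    · intro i _ hne
      rw [coeff_C_mul, coeff_X_pow, if_neg, mul_zero]
      intro h1
      exact hne (Fin.ext h1.symm)
    · intro h
      exact absurd (Finset.mem_univ _) h
  · rw [dif_neg h]
    refine Finset.sum_eq_zero fun i _ => ?_
    rw [coeff_C_mul, coeff_X_pow, if_neg, mul_zero]
    have := i.2
    omega

omit [Fintype I] [DecidableEq I] in
theorem pol_lt (u : Big δ → F) (b : I) : Lt (δ b + 1) (pol u b) := by
  intro m hm
  rw [pol_coeff, dif_neg (by omega)]

omit [Fintype I] [DecidableEq I] in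
theorem pol_eq_zero (u : Big δ → F) (h : pol u = 0) : u = 0 := by
  funext p
  obtain ⟨b, i⟩ := p
  have h1 := pol_coeff u b i
  rw [h, dif_pos i.2] at h1
  simpa using h1.symm

omit [DecidableEq I] in
theorem ap_pol (g : I → F[X]) (u : Big δ → F) :
    ap g (pol u) = ∑ q : Big δ, C (u q) * (X ^ (q.2 : ℕ) * g q.1) := by
  unfold ap pol
  rw [Fintype.sum_sigma]
  refine Finset.sum_congr rfl fun b _ => ?_
  rw [Finset.mul_sum]
  refine Finset.sum_congr rfl fun i _ => ?_
  ring

theorem phiM_mulVec (φ : I → I → F[X]) (u : Big δ → F) (p : Sml δ) :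
    (phiM δ φ).mulVec u p = (ap (φ p.1) (pol u)).coeff p.2 := by
  rw [ap_pol, finsetSum_coeff]
  unfold Matrix.mulVec dotProduct phiM
  refine Finset.sum_congr rfl fun q _ => ?_
  rw [coeff_C_mul, mul_comm]

theorem ker_pol {φ : I → I → F[X]} (hφ : ∀ b, Row δ (δ b) (φ b)) (u : Big δ → F)
    (hu : (phiM δ φ).mulVec u = 0) : Ker δ φ (pol u) := by
  refine ⟨pol_lt u, fun b => ?_⟩
  have h1 : Lt (δ b) (ap (φ b) (pol u)) := by
    refine Lt.sum _ _ fun b' _ => ?_
    by_cases hbb : δ b ≤ δ b'
    · rw [row_eq_zero hφ b b' hbb, zero_mul]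
      exact Lt.zero _
    · exact (hφ b b').mul (pol_lt u b') (by omega)
  ext m
  rw [coeff_zero]
  by_cases hm : m < δ b
  · have := congrFun hu ⟨b, ⟨m, hm⟩⟩
    rwa [phiM_mulVec] at this
  · exact h1 m (by omega)

/-- The kernel of the matrix has the expected dimension. -/
theorem dimension_count {φ : I → I → F[X]} {ψ : I → F[X]} (hφ : ∀ b, Row δ (δ b) (φ b))
    (h1 : ∀ u, Ker δ φ u → Lt (Fintype.card I) (ap ψ u))
    (h2 : ∀ u, Ker δ φ u → ap ψ u = 0 → u = 0) :
    (∀ w : Sml δ → F, ∃ v, (phiM δ φ).mulVec v = w) ∧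
    ∀ q : F[X], Lt (Fintype.card I) q → ∃ v, (phiM δ φ).mulVec v = 0 ∧ ap ψ (pol v) = q := by
  set f : (Big δ → F) →ₗ[F] (Sml δ → F) := (phiM δ φ).mulVecLin with hf
  let T0 : (Big δ → F) →ₗ[F] (Fin (Fintype.card I) → F) :=
    { toFun := fun v i => (ap ψ (pol v)).coeff i
      map_add' := by
        intro v w
        funext i
        simp only [Pi.add_apply]
        rw [ap_pol, ap_pol, ap_pol, ← coeff_add, ← Finset.sum_add_distrib]
        congr 1
        refine Finset.sum_congr rfl fun q _ => ?_
        simp only [Pi.add_apply, map_add]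
        ring
      map_smul' := by
        intro c v
        funext i
        simp only [Pi.smul_apply, smul_eq_mul, RingHom.id_apply]
        rw [ap_pol, ap_pol, ← coeff_C_mul, Finset.mul_sum]
        congr 1
        refine Finset.sum_congr rfl fun q _ => ?_
        simp only [Pi.smul_apply, smul_eq_mul, map_mul]
        ring }
  let T : LinearMap.ker f →ₗ[F] (Fin (Fintype.card I) → F) := T0.comp (LinearMap.ker f).subtype
  have hker : ∀ v : Big δ → F, v ∈ LinearMap.ker f → (phiM δ φ).mulVec v = 0 := by
    intro v hv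
    simpa [hf] using hv
  have hT : Function.Injective T := by
    rw [← LinearMap.ker_eq_bot, LinearMap.ker_eq_bot']
    rintro ⟨v, hv⟩ h0
    have hk := ker_pol hφ v (hker v hv)
    have h3 : ap ψ (pol v) = 0 := by
      ext m
      rw [coeff_zero]
      by_cases hm : m < Fintype.card I
      · exact congrFun h0 ⟨m, hm⟩
      · exact h1 _ hk m (by omega)
    have h4 := pol_eq_zero v (h2 _ hk h3)
    exact Subtype.ext h4
  have hcard : Fintype.card (Big δ) = Fintype.card (Sml δ) + Fintype.card I := by
    simp only [Fintype.card_sigma, Fintype.card_fin]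
    rw [Finset.sum_add_distrib]
    simp
  have hrn := LinearMap.finrank_range_add_finrank_ker f
  rw [Module.finrank_fintype_fun_eq_card] at hrn
  have hle : Module.finrank F (LinearMap.range f) ≤ Fintype.card (Sml δ) := by
    have := Submodule.finrank_le (LinearMap.range f)
    rwa [Module.finrank_fintype_fun_eq_card] at this
  have hle2 : Module.finrank F (LinearMap.ker f) ≤ Fintype.card I := by
    have := LinearMap.finrank_le_finrank_of_injective hT
    rwa [Module.finrank_fintype_fun_eq_card, Fintype.card_fin] at this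
  have hk1 : Module.finrank F (LinearMap.ker f) = Fintype.card I := by omega
  have hr1 : Module.finrank F (LinearMap.range f) = Fintype.card (Sml δ) := by omega
  constructor
  · intro w
    have h3 : LinearMap.range f = ⊤ := by
      apply Submodule.eq_top_of_finrank_eq
      rw [hr1, Module.finrank_fintype_fun_eq_card]
    have h4 : w ∈ LinearMap.range f := by rw [h3]; trivial
    obtain ⟨v, hv⟩ := h4
    exact ⟨v, by simpa [hf] using hv⟩
  · intro q hq
    have hTs : Function.Surjective T := by
      rw [← LinearMap.injective_iff_surjective_of_finrank_eq_finrank]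
      · exact hT
      · rw [hk1, Module.finrank_fintype_fun_eq_card, Fintype.card_fin]
    obtain ⟨⟨v, hv⟩, hv2⟩ := hTs (fun i => q.coeff i)
    refine ⟨v, hker v hv, ?_⟩
    have hk := ker_pol hφ v (hker v hv)
    ext m
    by_cases hm : m < Fintype.card I
    · exact congrFun hv2 ⟨m, hm⟩
    · rw [h1 _ hk m (by omega), hq m (by omega)]

variable {I' : Type} [Fintype I'] [DecidableEq I'] {ε : I' → ℕ}

/-- The Hankel-type block. -/
noncomputable def betaM (δ : I → ℕ) (ε : I' → ℕ) (r : ℕ) (ψ : I → F[X]) (ψ' : I' → F[X]) :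
    Matrix (Big ε) (Big δ) F :=
  fun p q => ((X ^ (q.2 : ℕ) * ψ q.1) * (X ^ (p.2 : ℕ) * ψ' p.1)).coeff (r - 1)

theorem betaM_comm (r : ℕ) (ψ : I → F[X]) (ψ' : I' → F[X]) :
    (aT F ε).transpose * (betaM δ ε r ψ ψ' * bT F δ) =
      (bT F ε).transpose * (betaM δ ε r ψ ψ' * aT F δ) := by
  have h1 : ∀ M : Matrix (Big ε) (Sml δ) F, (aT F ε).transpose * M =
      (M.transpose * aT F ε).transpose := by
    intro M
    rw [Matrix.transpose_mul, Matrix.transpose_transpose]
  have h2 : ∀ M : Matrix (Big ε) (Sml δ) F, (bT F ε).transpose * M =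
      (M.transpose * bT F ε).transpose := by
    intro M
    rw [Matrix.transpose_mul, Matrix.transpose_transpose]
  rw [h1, h2]
  ext p q
  rw [Matrix.transpose_apply, Matrix.transpose_apply, mul_aT, mul_bT, Matrix.transpose_apply,
    Matrix.transpose_apply, mul_aT, mul_bT]
  simp only [betaM, Fin.val_succ, Fin.val_castSucc]
  congr 1
  ring

theorem betaM_dot (r : ℕ) (ψ : I → F[X]) (ψ' : I' → F[X]) (u : Big δ → F) (v : Big ε → F) :
    v ⬝ᵥ (betaM δ ε r ψ ψ').mulVec u = (ap ψ (pol u) * ap ψ' (pol v)).coeff (r - 1) := by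
  rw [ap_pol, ap_pol, Finset.sum_mul_sum, finsetSum_coeff]
  unfold dotProduct Matrix.mulVec dotProduct
  simp only [Finset.mul_sum, finsetSum_coeff]
  rw [Finset.sum_comm]
  refine Finset.sum_congr rfl fun q _ => Finset.sum_congr rfl fun p _ => ?_
  have : C (u q) * (X ^ (q.2 : ℕ) * ψ q.1) * (C (v p) * (X ^ (p.2 : ℕ) * ψ' p.1)) =
      C (v p * u q) * ((X ^ (q.2 : ℕ) * ψ q.1) * (X ^ (p.2 : ℕ) * ψ' p.1)) := by
    rw [C_mul]
    ring
  rw [this, coeff_C_mul]
  unfold betaM
  ring

/-- The singular part of the matrix `E`. -/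
noncomputable def E1 (δ : I → ℕ) (ε : I' → ℕ) (r : ℕ) (φ : I → I → F[X]) (ψ : I → F[X])
    (φ' : I' → I' → F[X]) (ψ' : I' → F[X]) : Matrix (Sml δ ⊕ Big ε) (Big δ ⊕ Sml ε) F :=
  Matrix.fromBlocks (phiM δ φ) 0 (betaM δ ε r ψ ψ') (phiM ε φ').transpose

/-- The coefficient of `1` in the singular part of the pencil. -/
def A1 (F : Type) [Field F] (δ : I → ℕ) (ε : I' → ℕ) :
    Matrix (Big δ ⊕ Sml ε) (Sml δ ⊕ Big ε) F :=
  Matrix.fromBlocks (aT F δ) 0 0 (aT F ε).transpose

/-- The coefficient of `λ` in the singular part of the pencil. -/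
def B1 (F : Type) [Field F] (δ : I → ℕ) (ε : I' → ℕ) :
    Matrix (Big δ ⊕ Sml ε) (Sml δ ⊕ Big ε) F :=
  Matrix.fromBlocks (bT F δ) 0 0 (bT F ε).transpose

theorem E1_comm (r : ℕ) {φ : I → I → F[X]} (ψ : I → F[X]) {φ' : I' → I' → F[X]} (ψ' : I' → F[X])
    (hφ : ∀ b, Row δ (δ b) (φ b)) (hφ' : ∀ b, Row ε (ε b) (φ' b)) :
    A1 F δ ε * (E1 δ ε r φ ψ φ' ψ' * B1 F δ ε) = B1 F δ ε * (E1 δ ε r φ ψ φ' ψ' * A1 F δ ε) := by
  unfold A1 B1 E1
  simp only [Matrix.fromBlocks_multiply, Matrix.zero_mul, Matrix.mul_zero, add_zero, zero_add]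
  rw [phiM_comm hφ, betaM_comm r ψ ψ']
  have h : (aT F ε).transpose * ((phiM ε φ').transpose * (bT F ε).transpose) =
      (bT F ε).transpose * ((phiM ε φ').transpose * (aT F ε).transpose) := by
    have h1 := congrArg Matrix.transpose (phiM_comm hφ')
    simp only [Matrix.transpose_mul, Matrix.mul_assoc] at h1
    exact h1.symm
  rw [h]

theorem E1_injective {φ : I → I → F[X]} {ψ : I → F[X]} {φ' : I' → I' → F[X]} {ψ' : I' → F[X]}
    (hcard : Fintype.card I = Fintype.card I')
    (hφ : ∀ b, Row δ (δ b) (φ b)) (hφ' : ∀ b, Row ε (ε b) (φ' b))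
    (h1 : ∀ u, Ker δ φ u → Lt (Fintype.card I) (ap ψ u))
    (h2 : ∀ u, Ker δ φ u → ap ψ u = 0 → u = 0)
    (h1' : ∀ u, Ker ε φ' u → Lt (Fintype.card I') (ap ψ' u))
    (h2' : ∀ u, Ker ε φ' u → ap ψ' u = 0 → u = 0) :
    Function.Injective (E1 δ ε (Fintype.card I) φ ψ φ' ψ').mulVec := by
  obtain ⟨hs1, hs2⟩ := dimension_count hφ' h1' h2'
  have hlin : ∀ x, (E1 δ ε (Fintype.card I) φ ψ φ' ψ').mulVec x = 0 → x = 0 := by
    intro x hx
    have hx1 : x = Sum.elim (fun p => x (Sum.inl p)) (fun p => x (Sum.inr p)) := by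
      funext p
      cases p <;> rfl
    set u : Big δ → F := fun p => x (Sum.inl p) with hu
    set f : Sml ε → F := fun p => x (Sum.inr p) with hf
    rw [hx1] at hx
    unfold E1 at hx
    rw [Matrix.fromBlocks_mulVec] at hx
    have e1 : (phiM δ φ).mulVec u = 0 := by
      funext p
      have := congrFun hx (Sum.inl p)
      simpa using this
    have e2 : (betaM δ ε (Fintype.card I) ψ ψ').mulVec u + (phiM ε φ').transpose.mulVec f = 0 := by
      funext p
      have := congrFun hx (Sum.inr p)
      simpa using this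
    -- the pairing with the kernel vanishes
    have e3 : ∀ v, (phiM ε φ').mulVec v = 0 →
        (ap ψ (pol u) * ap ψ' (pol v)).coeff (Fintype.card I - 1) = 0 := by
      intro v hv
      rw [← betaM_dot]
      have e4 : v ⬝ᵥ ((betaM δ ε (Fintype.card I) ψ ψ').mulVec u +
          (phiM ε φ').transpose.mulVec f) = 0 := by rw [e2, dotProduct_zero]
      rw [dotProduct_add, Matrix.mulVec_transpose, dotProduct_comm v (Matrix.vecMul f _),
        ← Matrix.dotProduct_mulVec, hv, dotProduct_zero, add_zero] at e4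
      exact e4
    have hk := ker_pol hφ u e1
    have e5 : ap ψ (pol u) = 0 := by
      ext m
      rw [coeff_zero]
      by_cases hm : m < Fintype.card I
      · obtain ⟨v, hv1, hv2⟩ := hs2 (X ^ (Fintype.card I - 1 - m)) (by
          intro m' hm'
          rw [coeff_X_pow, if_neg (by omega)])
        have e6 := e3 v hv1
        rw [hv2, coeff_mul_X_pow', if_pos (by omega)] at e6
        have e7 : Fintype.card I - 1 - (Fintype.card I - 1 - m) = m := by omega
        rwa [e7] at e6
      · exact h1 _ hk m (by omega)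
    have hu0 : u = 0 := pol_eq_zero u (h2 _ hk e5)
    have e8 : (phiM ε φ').transpose.mulVec f = 0 := by
      rwa [hu0, Matrix.mulVec_zero, zero_add] at e2
    have hf0 : f = 0 := by
      funext p
      obtain ⟨v, hv⟩ := hs1 (Pi.single p 1)
      have e9 : v ⬝ᵥ (phiM ε φ').transpose.mulVec f = 0 := by rw [e8, dotProduct_zero]
      rw [Matrix.mulVec_transpose, dotProduct_comm, ← Matrix.dotProduct_mulVec, hv,
        dotProduct_single, mul_one] at e9
      exact e9
    rw [hx1, hu0, hf0]
    funext p
    cases p <;> rfl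
  intro x y hxy
  have h3 : (E1 δ ε (Fintype.card I) φ ψ φ' ψ').mulVec (x - y) = 0 := by
    rw [Matrix.mulVec_sub, hxy, sub_self]
  exact sub_eq_zero.1 (hlin _ h3)

end poly

/-! ### The theorem -/

/-- Sizes `0 = δ₀ < δ₁ < ... < δ_k` with multiplicities `n₀, n₁, ..., n_k`. -/
structure Sizes where
  /-- the number of positive sizes -/
  k : ℕ
  /-- the sizes -/
  size : Fin (k + 1) → ℕ
  /-- the multiplicities -/
  mult : Fin (k + 1) → ℕ
  size_zero : size 0 = 0
  size_strictMono : StrictMono size

/-- The blocks: `n_i` blocks for every `i`. -/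
abbrev Sizes.Block (X : Sizes) : Type := Σ i : Fin (X.k + 1), Fin (X.mult i)

/-- The size of a block. -/
def Sizes.d (X : Sizes) (b : X.Block) : ℕ := X.size b.1

/-- The inequalities `δ_i n_i ≤ n₀ + n₁ + ... + n_(i-1)`, `i = 1, ..., k`. -/
def Sizes.Ineq (X : Sizes) : Prop :=
  ∀ i : Fin (X.k + 1), i ≠ 0 → X.size i * X.mult i ≤ ∑ j ∈ Finset.Iio i, X.mult j

theorem Sizes.cond (X : Sizes) (h : X.Ineq) : Cond X.d := by
  intro d
  by_cases hd : ∃ i, X.size i = d
  · obtain ⟨i, rfl⟩ := hd
    by_cases hi : i = 0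
    · rw [hi, X.size_zero, zero_mul]
      exact Nat.zero_le _
    · have h1 : (Finset.univ.filter fun b : X.Block => X.d b = X.size i).card = X.mult i := by
        rw [Finset.card_filter, Fintype.sum_sigma, Finset.sum_eq_single i]
        · simp [Sizes.d]
        · intro j _ hj
          refine Finset.sum_eq_zero fun c _ => ?_
          exact if_neg fun h2 => hj (X.size_strictMono.injective h2)
        · intro h2
          exact absurd (Finset.mem_univ _) h2
      have h2 : (Finset.univ.filter fun b : X.Block => X.d b < X.size i).card =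
          ∑ j ∈ Finset.Iio i, X.mult j := by
        rw [Finset.card_filter, Fintype.sum_sigma]
        have h3 : Finset.Iio i = Finset.univ.filter (fun j => j < i) := by
          ext j; simp
        rw [h3, Finset.sum_filter]
        refine Finset.sum_congr rfl fun j _ => ?_
        by_cases hj : j < i
        · rw [if_pos hj]
          have : ∀ c : Fin (X.mult j), X.d ⟨j, c⟩ < X.size i := fun c => X.size_strictMono hj
          simp [this]
        · rw [if_neg hj]
          refine Finset.sum_eq_zero fun c _ => ?_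
          exact if_neg fun h4 => hj (X.size_strictMono.lt_iff_lt.1 h4)
      rw [h1, h2]
      exact h i hi
  · have h1 : (Finset.univ.filter fun b : X.Block => X.d b = d).card = 0 := by
      rw [Finset.card_eq_zero, Finset.filter_eq_empty_iff]
      intro b _ hb
      exact hd ⟨b.1, hb⟩
    rw [h1, mul_zero]
    exact Nat.zero_le _

/-- The rows of the pencil with `𝓛ᵀ`-blocks `X`, `𝓛`-blocks `Y` and a regular part of size `p + q`. -/
abbrev Rows (X Y : Sizes) (p q : ℕ) : Type := (Big X.d ⊕ Sml Y.d) ⊕ (Fin p ⊕ Fin q)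

/-- The columns of the pencil. -/
abbrev Cols (X Y : Sizes) (p q : ℕ) : Type := (Sml X.d ⊕ Big Y.d) ⊕ (Fin p ⊕ Fin q)

/-- The coefficient of `1` in the canonical form
`diag(𝓛ᵀ-blocks, 𝓛-blocks, J + λ I, I + λ K)`. -/
noncomputable def canA (X Y : Sizes) {p : ℕ} (q : ℕ) (J : Matrix (Fin p) (Fin p) ℂ) :
    Matrix (Rows X Y p q) (Cols X Y p q) ℂ :=
  Matrix.fromBlocks (A1 ℂ X.d Y.d) 0 0 (Matrix.fromBlocks J 0 0 1)

/-- The coefficient of `λ` in the canonical form
`diag(𝓛ᵀ-blocks, 𝓛-blocks, J + λ I, I + λ K)`. -/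
noncomputable def canB (X Y : Sizes) (p : ℕ) {q : ℕ} (K : Matrix (Fin q) (Fin q) ℂ) :
    Matrix (Rows X Y p q) (Cols X Y p q) ℂ :=
  Matrix.fromBlocks (B1 ℂ X.d Y.d) 0 0 (Matrix.fromBlocks 1 0 0 K)

/-- `S` has a two-sided inverse. -/
def Inv {m n : Type} [Fintype m] [Fintype n] [DecidableEq m] [DecidableEq n] (S : Matrix m n ℂ) :
    Prop := ∃ S' : Matrix n m ℂ, S * S' = 1 ∧ S' * S = 1

theorem canonical (X Y : Sizes) (hX : X.Ineq) (hY : Y.Ineq)
    (hcard : Fintype.card X.Block = Fintype.card Y.Block) {p q : ℕ} (J : Matrix (Fin p) (Fin p) ℂ)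
    (K : Matrix (Fin q) (Fin q) ℂ) :
    ∃ E : Matrix (Cols X Y p q) (Rows X Y p q) ℂ, Function.Injective E.mulVec ∧
      canA X Y q J * (E * canB X Y p K) = canB X Y p K * (E * canA X Y q J) := by
  obtain ⟨φ, ψ, h1, h2, h3⟩ := exists_phi_psi (F := ℂ) X.d (X.cond hX)
  obtain ⟨φ', ψ', h1', h2', h3'⟩ := exists_phi_psi (F := ℂ) Y.d (Y.cond hY)
  have hinj := E1_injective hcard h1 h1' h2 h3 h2' h3'
  have hcomm := E1_comm (Fintype.card X.Block) ψ ψ' h1 h1'
  set E := E1 X.d Y.d (Fintype.card X.Block) φ ψ φ' ψ' with hE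
  refine ⟨Matrix.fromBlocks E 0 0 1, ?_, ?_⟩
  · intro x y hxy
    have hx : x = Sum.elim (fun p => x (Sum.inl p)) (fun p => x (Sum.inr p)) := by
      funext p; cases p <;> rfl
    have hy : y = Sum.elim (fun p => y (Sum.inl p)) (fun p => y (Sum.inr p)) := by
      funext p; cases p <;> rfl
    rw [hx, hy] at hxy ⊢
    simp only [Matrix.fromBlocks_mulVec, Matrix.zero_mulVec, add_zero, zero_add,
      Matrix.one_mulVec] at hxy
    have e1 : E.mulVec (fun p => x (Sum.inl p)) = E.mulVec (fun p => y (Sum.inl p)) := by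
      funext p
      exact congrFun hxy (Sum.inl p)
    have e2 : (fun p => x (Sum.inr p)) = (fun p => y (Sum.inr p)) := by
      funext p
      exact congrFun hxy (Sum.inr p)
    rw [hinj e1, e2]
  · unfold canA canB
    simp only [Matrix.fromBlocks_multiply, Matrix.zero_mul, Matrix.mul_zero, add_zero, zero_add,
      Matrix.one_mul, Matrix.mul_one]
    rw [hcomm]

/-- **Affirmative answer to Q1.** Let `A, B` be complex `N × N` matrices whose pencil `A + λ B` is
strictly equivalent, by `S` and `T`, to `diag(𝓛ᵀ-blocks, 𝓛-blocks, J + λ I, I + λ K)`, where there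
are `n₀` blocks `𝓛ᵀ₀` and `n_i` blocks `𝓛ᵀ_(δ_i)`, `δ₁ < ... < δ_k` (data `X`), and `m₀` blocks `𝓛₀`
and `m_j` blocks `𝓛_(ε_j)`, `ε₁ < ... < ε_l` (data `Y`). If `δ_i n_i ≤ n₀ + ... + n_(i-1)` and
`ε_j m_j ≤ m₀ + ... + m_(j-1)` for all `i, j ≥ 1`, then `E A` and `E B` commute for some invertible
`E`. -/
theorem result (X Y : Sizes) (hX : X.Ineq) (hY : Y.Ineq) {p q N : ℕ}
    (J : Matrix (Fin p) (Fin p) ℂ) (K : Matrix (Fin q) (Fin q) ℂ) (A B : Matrix (Fin N) (Fin N) ℂ)
    (S : Matrix (Rows X Y p q) (Fin N) ℂ) (T : Matrix (Fin N) (Cols X Y p q) ℂ)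
    (hS : Inv S) (hT : Inv T) (hA : S * A * T = canA X Y q J) (hB : S * B * T = canB X Y p K) :
    ∃ E : Matrix (Fin N) (Fin N) ℂ, IsUnit E ∧ (E * A) * (E * B) = (E * B) * (E * A) := by
  obtain ⟨S', hS1, hS2⟩ := hS
  obtain ⟨T', hT1, hT2⟩ := hT
  have hcard : Fintype.card X.Block = Fintype.card Y.Block := by
    have c1 := Matrix.square_of_invertible S S' hS1 hS2
    have c2 := Matrix.square_of_invertible T T' hT1 hT2
    simp only [Fintype.card_sum, Fintype.card_sigma, Fintype.card_fin] at c1 c2
    have hb : ∀ Z : Sizes, ∑ b : Z.Block, (Z.d b + 1) = ∑ b : Z.Block, Z.d b +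
        Fintype.card Z.Block := by
      intro Z
      rw [Finset.sum_add_distrib]
      simp
    rw [hb X] at c1
    rw [hb Y] at c2
    omega
  obtain ⟨E, hE, hcomm⟩ := canonical X Y hX hY hcard J K
  refine ⟨T * E * S, ?_, ?_⟩
  · rw [← Matrix.mulVec_injective_iff_isUnit]
    intro x y hxy
    simp only [← Matrix.mulVec_mulVec] at hxy
    have e1 : ∀ x y : (Cols X Y p q) → ℂ, T.mulVec x = T.mulVec y → x = y := by
      intro x y h
      have := congrArg T'.mulVec h
      simpa only [Matrix.mulVec_mulVec, hT2, Matrix.one_mulVec] using this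
    have e2 : ∀ x y : Fin N → ℂ, S.mulVec x = S.mulVec y → x = y := by
      intro x y h
      have := congrArg S'.mulVec h
      simpa only [Matrix.mulVec_mulVec, hS2, Matrix.one_mulVec] using this
    exact e2 _ _ (hE (e1 _ _ hxy))
  · have h1 : (T * E * S * A) * (T * E * S * B) * T = (T * E * S * B) * (T * E * S * A) * T := by
      calc (T * E * S * A) * (T * E * S * B) * T
          = T * E * ((S * A * T) * (E * (S * B * T))) := by simp only [Matrix.mul_assoc]
        _ = T * E * ((S * B * T) * (E * (S * A * T))) := by rw [hA, hB, hcomm]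
        _ = _ := by simp only [Matrix.mul_assoc]
    have h2 := congrArg (fun M => M * T') h1
    simp only [Matrix.mul_assoc, hT1, Matrix.mul_one] at h2
    simp only [Matrix.mul_assoc]
    exact h2

end Pool.Agent.Results.MP_3c4fb9_al.CommutingPencils
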